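import Mathlib

set_option autoImplicit false

namespace Pool.Agent.Results.MP_fcf092_an.Counter

open Polynomial Finset

/-- A real polynomial is hyperbolic if it is zero or all of its complex zeros are real. -/
def Hyperbolic (p : ℝ[X]) : Prop := p = 0 ∨ ∀ z : ℂ, aeval z p = 0 → z.im = 0

/-- The physicists' Hermite polynomials. -/
noncomputable def H : ℕ → ℝ[X]
  | 0 => 1
  | n + 1 => 2 * X * H n - derivative (H n)

/-- The operator `∑ Q k D ^ k` (the terms with `k > deg f` vanish). -/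
noncomputable def op (Q : ℕ → ℝ[X]) (f : ℝ[X]) : ℝ[X] :=
  ∑ k ∈ range (f.natDegree + 1), Q k * derivative^[k] f

noncomputable def e (s : ℝ) (k : ℕ) : ℝ[X] := C (s ^ k / (k.factorial : ℝ)) * X ^ k

theorem tay (s : ℝ) (f : ℝ[X]) (N : ℕ) (hN : f.natDegree < N) :
    ∑ k ∈ range N, e s k * derivative^[k] f = f.comp (C (1 + s) * X) := by
  apply Polynomial.funext
  intro x
  have h1 : (f.comp (C (1 + s) * X)).eval x = (taylor x f).eval (s * x) := by
    rw [taylor_eval, eval_comp]; simp only [eval_mul, eval_C, eval_X]; ring_nf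
  rw [h1, eval_eq_sum_range' (p := taylor x f) (n := N) (by rwa [natDegree_taylor]),
    eval_finsetSum]
  refine sum_congr rfl fun k _ => ?_
  have h2 : derivative^[k] f = k.factorial • hasseDeriv k f := by
    rw [← factorial_smul_hasseDeriv]; rfl
  have h3 : (k.factorial : ℝ) ≠ 0 := by exact_mod_cast k.factorial_ne_zero
  rw [taylor_coeff, h2, e, eval_mul, eval_mul, eval_C, eval_smul, nsmul_eq_mul, eval_pow, eval_X, mul_pow]
  field_simp

noncomputable def sh (a : ℕ → ℝ[X]) : ℕ → ℝ[X]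
  | 0 => 0
  | k + 1 => a k

theorem sh_sum (a : ℕ → ℝ[X]) (f : ℝ[X]) (N : ℕ) (hN : f.natDegree < N) :
    ∑ k ∈ range N, sh a k * derivative^[k] f =
      ∑ k ∈ range N, a k * derivative^[k] (derivative f) := by
  have h1 : ∑ k ∈ range (N + 1), sh a k * derivative^[k] f =
      ∑ k ∈ range N, sh a k * derivative^[k] f := by
    rw [sum_range_succ, iterate_derivative_eq_zero hN, mul_zero, add_zero]
  rw [← h1, sum_range_succ']
  simp [sh]

theorem dlt {f : ℝ[X]} {N : ℕ} (hN : f.natDegree < N) : (derivative f).natDegree < N :=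
  lt_of_le_of_lt ((natDegree_derivative_le f).trans (Nat.sub_le _ _)) hN

noncomputable def Qs (s c : ℝ) (k : ℕ) : ℝ[X] :=
  -e s k + C c * X * sh (e s) k + C c ^ 2 * X ^ 2 * sh (sh (e s)) k +
    C c ^ 3 * X * sh (sh (sh (e s))) k + C c ^ 4 * C (1 / 4) * sh (sh (sh (sh (e s)))) k

theorem op_Qs (s c : ℝ) (f : ℝ[X]) : op (Qs s c) f =
    -f.comp (C (1 + s) * X) + C c * X * (derivative f).comp (C (1 + s) * X) +
    C c ^ 2 * X ^ 2 * (derivative (derivative f)).comp (C (1 + s) * X) +
    C c ^ 3 * X * (derivative (derivative (derivative f))).comp (C (1 + s) * X) +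
    C c ^ 4 * C (1 / 4) *
      (derivative (derivative (derivative (derivative f)))).comp (C (1 + s) * X) := by
  have h0 := Nat.lt_succ_self f.natDegree
  have h1 := dlt h0
  have h2 := dlt h1
  have h3 := dlt h2
  have h4 := dlt h3
  rw [← tay s _ _ h0, ← tay s _ _ h1, ← tay s _ _ h2, ← tay s _ _ h3, ← tay s _ _ h4,
    ← sh_sum _ _ _ h3, ← sh_sum _ _ _ h2, ← sh_sum _ _ _ h2, ← sh_sum _ _ _ h1,
    ← sh_sum _ _ _ h1, ← sh_sum _ _ _ h1, ← sh_sum _ _ _ h0, ← sh_sum _ _ _ h0,
    ← sh_sum _ _ _ h0, ← sh_sum _ _ _ h0]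
  simp only [op, mul_sum, ← sum_neg_distrib, ← sum_add_distrib]
  refine sum_congr rfl fun k _ => ?_
  rw [Qs]; ring

theorem sh_scale (a b : ℕ → ℝ[X]) (c : ℝ) (h : ∀ k, C (1 / 2 ^ k) * a k = C c * b k) (k : ℕ) :
    C (1 / 2 ^ k) * sh a k = C (c / 2) * sh b k := by
  cases k with
  | zero => simp [sh]
  | succ k =>
    have : (1 / 2 ^ (k + 1) : ℝ) = 1 / 2 * (1 / 2 ^ k) := by rw [pow_succ]; field_simp
    rw [sh, sh, this, C_mul, mul_assoc, h, ← mul_assoc, ← C_mul]; ring_nf

theorem scale (k : ℕ) : C (1 / 2 ^ k) * Qs (-2) 1 k = Qs (-1) (1 / 2) k := by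
  have h0 : ∀ k, C (1 / 2 ^ k) * e (-2) k = C 1 * e (-1) k := by
    intro k
    rw [e, e, ← mul_assoc, ← mul_assoc, ← C_mul, ← C_mul]
    congr 2
    rw [show (-2 : ℝ) = -1 * 2 by norm_num, mul_pow]; field_simp
  have h1 := sh_scale _ _ _ h0
  have h2 := sh_scale _ _ _ h1
  have h3 := sh_scale _ _ _ h2
  have h4 := sh_scale _ _ _ h3
  have a1 : (C (1 / 2) : ℝ[X]) ^ 2 = C (1 / 2 / 2) := by rw [← C_pow]; norm_num
  have a2 : (C (1 / 2) : ℝ[X]) ^ 3 = C (1 / 2 / 2 / 2) := by rw [← C_pow]; norm_num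
  have a3 : (C (1 / 2) : ℝ[X]) ^ 4 = C (1 / 2 / 2 / 2 / 2) := by rw [← C_pow]; norm_num
  rw [Qs, Qs, a1, a2, a3]
  rw [C_1] at h0 ⊢
  linear_combination -(h0 k) + X * h1 k + X ^ 2 * h2 k + X * h3 k + C (1 / 4) * h4 k

theorem H_ode (n : ℕ) :
    derivative (derivative (H n)) = 2 * X * derivative (H n) - 2 * (n : ℝ[X]) * H n := by
  induction n with
  | zero => simp [H]
  | succ n ih =>
    have h1 : derivative (H (n + 1)) = 2 * (n + 1) * H n := by
      rw [H]; simp only [derivative_sub, derivative_mul, derivative_X, derivative_ofNat, ih]; ring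
    rw [h1, H]
    simp only [derivative_mul, derivative_ofNat, derivative_add, derivative_natCast,
      derivative_one]
    push_cast; ring

theorem H_neg (n : ℕ) : (H n).comp (-X) = (-1) ^ n * H n := by
  induction n with
  | zero => simp [H]
  | succ n ih =>
    have h1 := congrArg derivative ih
    rw [derivative_comp] at h1
    simp only [derivative_neg, derivative_X, derivative_mul, derivative_pow, derivative_one,
      neg_zero, mul_zero, zero_mul, zero_add] at h1
    rw [H, sub_comp, mul_comp, mul_comp, ih]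
    simp only [ofNat_comp, X_comp]
    linear_combination h1

theorem T_H (n : ℕ) : op (Qs (-2) 1) (H n) = C ((-1) ^ n * ((n : ℝ) ^ 2 - 2 * n - 1)) * H n := by
  have h2 := H_ode n
  have h3 := congrArg derivative h2
  simp only [derivative_sub, derivative_mul, derivative_X, derivative_ofNat,
    derivative_natCast] at h3
  have h4 := congrArg derivative h3
  simp only [derivative_sub, derivative_mul, derivative_X, derivative_ofNat, derivative_add,
    derivative_natCast, derivative_zero, derivative_one] at h4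
  have h5 : (C (1 / 4) : ℝ[X]) * 4 = 1 := by
    rw [show (4 : ℝ[X]) = C 4 from rfl, ← C_mul]; norm_num
  have key : -H n - X * derivative (H n) + X ^ 2 * derivative (derivative (H n)) -
      X * derivative (derivative (derivative (H n))) +
      C (1 / 4) * derivative (derivative (derivative (derivative (H n)))) =
      ((n : ℝ[X]) ^ 2 - 2 * (n : ℝ[X]) - 1) * H n := by
    rw [h4, h3, h2]
    linear_combination (-(2 * X * n * derivative (H n)) + 3 * X * derivative (H n)
      + 2 * X ^ 3 * derivative (H n) - 2 * X ^ 2 * n * H n - 2 * n * H n + n ^ 2 * H n) * h5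
  have k2 := congrArg (fun p : ℝ[X] => p.comp (-X)) key
  simp only [add_comp, sub_comp, mul_comp, neg_comp, X_comp, pow_comp, C_comp, natCast_comp,
    ofNat_comp, one_comp] at k2
  rw [op_Qs, show (C (1 + -2) * X : ℝ[X]) = -X by norm_num, C_1]
  rw [H_neg] at k2 ⊢
  simp only [map_mul, map_pow, map_neg, map_one, map_sub, map_natCast, map_ofNat]
  linear_combination k2

theorem W_eq (f : ℝ[X]) : op (fun k => C (1 / 2 ^ k) * Qs (-2) 1 k) f =
    C (f.coeff 2 / 2) * X ^ 2 + C (f.coeff 1 / 2 + 3 / 4 * f.coeff 3) * X +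
      C (3 / 8 * f.coeff 4 - f.coeff 0) := by
  simp only [scale]
  rw [show (fun k => Qs (-1) (1 / 2) k) = Qs (-1) (1 / 2) from rfl, op_Qs]
  simp only [add_neg_cancel, map_zero, zero_mul, comp_zero, ← coeff_zero_eq_eval_zero,
    coeff_derivative]
  apply Polynomial.funext
  intro x
  simp
  ring

theorem hyp_mono (c : ℝ) (k : ℕ) : Hyperbolic (C c * X ^ k) := by
  by_cases hc : c = 0
  · left; simp [hc]
  right
  intro z hz
  simp only [map_mul, aeval_C, map_pow, aeval_X, mul_eq_zero] at hz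
  rcases hz with hz | hz
  · exact absurd (by simpa using hz) hc
  · rw [pow_eq_zero_iff'.1 hz |>.1]; rfl

theorem result : ∃ (Q : ℕ → ℝ[X]) (γ : ℕ → ℝ),
    (∀ n, op Q (H n) = C (γ n) * H n) ∧
    (∀ n : ℕ, Hyperbolic (op (fun k => C (1 / 2 ^ k) * Q k) (X ^ n))) ∧
    ∃ p, Hyperbolic p ∧ ¬ Hyperbolic (op (fun k => C (1 / 2 ^ k) * Q k) p) := by
  refine ⟨Qs (-2) 1, _, T_H, fun n => ?_, X ^ 2 - 1, ?_, ?_⟩
  · rw [W_eq]
    simp only [coeff_X_pow]
    rcases n with _ | _ | _ | _ | _ | n
    · simpa using hyp_mono (-1) 0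
    · simpa using hyp_mono (1 / 2) 1
    · simpa using hyp_mono (1 / 2) 2
    · simpa using hyp_mono (3 / 4) 1
    · simpa using hyp_mono (3 / 8) 0
    · left; simp
  · right
    intro z hz
    simp only [map_sub, map_pow, aeval_X, map_one] at hz
    have : (z - 1) * (z + 1) = 0 := by linear_combination hz
    rcases mul_eq_zero.1 this with h | h
    · rw [sub_eq_zero.1 h]; simp
    · rw [eq_neg_of_add_eq_zero_left h]; simp
  · rw [W_eq]
    simp only [coeff_sub, coeff_X_pow, coeff_one]
    rintro (h | h)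
    · have := congrArg (eval 0) h
      simp at this
    · have := h ((√2 : ℝ) * Complex.I) (by
        have h2 : ((√2 : ℝ) : ℂ) ^ 2 = 2 := by
          rw [← Complex.ofReal_pow, Real.sq_sqrt (by norm_num)]; simp
        simp [mul_pow, h2])
      simp at this

end Pool.Agent.Results.MP_fcf092_an.Counter
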